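import Pool.Agent.MP_f8bd42_al.Lie3

open Pool.Agent.MP_f8bd42_al

/-- For every rank `d ≥ 18` there is a Lie ring of rank `d` whose topological subalgebra zeta
function has a zero with real part below `min 0 (3 / 2 - √d / 4)`. -/
theorem Pool.Agent.Results.MP_f8bd42_al.LieUnbounded.result (d : ℕ) (hd : 18 ≤ d) :
    ∃ c : Fin d → Fin d → Fin d → ℤ,
      (∀ x, algMul c ℤ x x = 0) ∧
      (∀ x y z, algMul c ℤ x (algMul c ℤ y z) + algMul c ℤ y (algMul c ℤ z x) +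
        algMul c ℤ z (algMul c ℤ x y) = 0) ∧
      ∃ Z : RatFunc ℚ, (∀ Z' : RatFunc ℚ, IsTopZeta c Z' ↔ Z' = Z) ∧
        ∃ s : ℂ, s.re < min 0 (3 / 2 - √(d : ℝ) / 4) ∧
          Polynomial.aeval s Z.num = 0 ∧ Polynomial.aeval s Z.denom ≠ 0 := by
  obtain ⟨m, rfl⟩ : ∃ m, d = m + 4 := ⟨d - 4, by omega⟩
  obtain ⟨s, h1, h2⟩ := exists_root (m := m) (by omega)
  refine ⟨lieC m, lieC_alt m ℤ, lieC_jacobi m ℤ, topL m,
    fun _ => ⟨eq_topL, fun h => h ▸ isTopZeta_topL m⟩, s, ?_,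
    zero_topL (lt_of_lt_of_le h1 (min_le_left _ _)) h2⟩
  push_cast
  exact h1
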