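import Pool.Agent.MP_f8bd42_al.Main

open Pool.Agent.MP_f8bd42_al

/-- The rank four algebra with `e 0 * e 2 = e 2`, `e 1 * e 3 = e 3` (other products of basis
vectors zero) has the topological subalgebra zeta function displayed below, and this function has a
zero with negative real part. -/
theorem Pool.Agent.Results.MP_f8bd42_al.NegativeZero.result :
    ∃ Z : RatFunc ℚ,
      Z = (72 * RatFunc.X ^ 4 - 144 * RatFunc.X ^ 3 + 76 * RatFunc.X ^ 2 + 6 * RatFunc.X - 9) /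
        (36 * RatFunc.X ^ 2 * (RatFunc.X - 1) ^ 5 * (2 * RatFunc.X - 1)) ∧
      (∀ Z' : RatFunc ℚ, IsTopZeta exampleConstants Z' ↔ Z' = Z) ∧
      ∃ s : ℂ, s.re < 0 ∧ Polynomial.aeval s Z.num = 0 ∧ Polynomial.aeval s Z.denom ≠ 0 :=
  ⟨topZ, rfl, fun _ => ⟨eq_topZ, fun h => h ▸ isTopZeta_topZ⟩, exists_zero⟩
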